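import Pool.Agent.R291.SolvIET

/-!
There is a finitely generated solvable group (of derived length at most three) of piecewise
isometric transformations of the circle, modulo finitely supported permutations, which is not
realizable.
-/

namespace Pool.Agent.Results.MP_f6bc98_an.SolvableNotRealizable

open Pool.Agent.R291

theorem result : ∃ Γ : Subgroup (NearPerm S1),
    Γ.FG ∧ Group.IsSolvable Γ ∧ derivedSeries Γ 3 = ⊥ ∧ SubPC Γ ∧ SubIET Γ ∧ ¬ Realizable Γ := by
  obtain ⟨α, β, h⟩ := exists_indep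
  refine ⟨Gam α β, Gam_fg, Gam_solvable, Gam_derived, ?_, ?_, ?_⟩
  · intro γ hγ
    obtain ⟨f, hf, hfγ⟩ := Gam_rep h hγ
    exact ⟨f, hf.2, hfγ⟩
  · intro γ hγ
    obtain ⟨f, hf, hfγ⟩ := Gam_rep h hγ
    exact ⟨f, hf.1, hfγ⟩
  · rintro ⟨Λ, _, hΛ⟩
    exact not_realizable h hΛ

end Pool.Agent.Results.MP_f6bc98_an.SolvableNotRealizable
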